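import Pool.Agent.W998.KG.Stm2

/-! Part GAT of project KG: three neighbours at the end of a lollipop, even girth. -/

set_option autoImplicit false

namespace Pool.Agent.W334.KG

open Pool.Agent.Results.MP_633d19_co.SmallDegree
open Pool.Agent.Results.MP_633d19_co.SmallDegree.MGraph

variable {V E : Type} {G : MGraph V E}

theorem mk {r : ℕ} {y : ℕ → V} (hinj : ∀ i ≤ r, ∀ j ≤ r, y i = y j → i = j) (w : ℕ → ℕ) (n : ℕ)
    (hn : 1 ≤ n) (hr : ∀ i < n, w i ≤ r) (hw : ∀ i < n, ∀ j < n, w i = w j → i = j)
    (hadj : ∀ i, i + 1 < n → ∃ e, G.ends e = s(y (w i), y (w (i + 1))))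
    (hcl : ∃ e, G.ends e = s(y (w (n - 1)), y (w 0))) : G.HasCycle n := by
  refine ⟨fun i => y (w i), fun i hi j hj h => hw i hi j hj (hinj _ (hr i hi) _ (hr j hj) h), ?_⟩
  intro i hi
  rcases Nat.lt_or_ge (i + 1) n with h | h
  · rw [Nat.mod_eq_of_lt h]
    exact hadj i h
  · have h2 : i + 1 = n := by omega
    have h3 : i = n - 1 := by omega
    rw [h2, Nat.mod_self, h3]
    exact hcl

theorem main : Pool.Agent.W998.KG.PartGAT := by
  intro V E G g l r hg hg2 hgirth y hinj hed hl hlo hlr hclose A hA hcard
  have adjs : ∀ i j, (∃ e, G.ends e = s(y i, y j)) → ∃ e, G.ends e = s(y j, y i) := by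
    rintro i j ⟨e, he⟩
    exact ⟨e, by rw [he, Sym2.eq_swap]⟩
  -- the cycle of length l
  have c0 : g ≤ l := by
    apply hgirth l hl
    refine mk hinj (fun i => i) l (by omega) (fun i hi => by omega)
      (fun i _ j _ h => h) (fun i hi => hed i (by omega)) hclose
  have hgl : g + 1 ≤ l := by omega
  -- two elements
  obtain ⟨a, b, haA, hbA, hab, hbr⟩ : ∃ a b, a ∈ A ∧ b ∈ A ∧ a < b ∧ b + 1 < r := by
    have h1 : 1 < (A.erase (r - 1)).card := by
      have := Finset.pred_card_le_card_erase (a := r - 1) (s := A)
      omega
    obtain ⟨a, ha, b, hb, hne⟩ := Finset.one_lt_card.1 h1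
    rw [Finset.mem_erase] at ha hb
    have h2 := (hA a ha.2).1
    have h3 := (hA b hb.2).1
    rcases Nat.lt_or_ge a b with h | h
    · exact ⟨a, b, ha.2, hb.2, h, by omega⟩
    · exact ⟨b, a, hb.2, ha.2, by omega, by omega⟩
  have ea := (hA a haA).2
  have eb := (hA b hbA).2
  have c1 : g ≤ b - a + 2 := by
    apply hgirth _ (by omega)
    refine mk hinj (fun i => if i < b - a + 1 then a + i else r) (b - a + 2) (by omega) ?_ ?_ ?_ ?_
    · intro i hi
      split_ifs <;> omega
    · intro i hi j hj h
      split_ifs at h <;> omega
    · intro i hi
      rw [if_pos (by omega)]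
      by_cases h : i + 1 < b - a + 1
      · rw [if_pos h]
        exact hed (a + i) (by omega)
      · rw [if_neg h]
        have : a + i = b := by omega
        rw [this]
        exact adjs _ _ eb
    · rw [if_neg (by omega), if_pos (by omega), add_zero]
      exact ea
  have c2 : g ≤ r - b + 1 := by
    apply hgirth _ (by omega)
    refine mk hinj (fun i => b + i) (r - b + 1) (by omega) ?_ ?_ ?_ ?_
    · intro i hi
      omega
    · intro i hi j hj h
      omega
    · intro i hi
      exact hed (b + i) (by omega)
    · skip
      have : b + (r - b + 1 - 1) = r := by omega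
      rw [this, add_zero]
      exact eb
  rcases Nat.lt_or_ge (l - 1) b with h1 | h1
  · rcases Nat.lt_or_ge a (l - 1) with h2 | h2
    · -- C4
      have c4 : g ≤ a + b - l + 4 := by
        apply hgirth _ (by omega)
        refine mk hinj (fun i => if i ≤ a then a - i else
          if i ≤ a + (b - l + 2) then (l - 1) + (i - (a + 1)) else r) (a + b - l + 4)
          (by omega) ?_ ?_ ?_ ?_
        · intro i hi
          split_ifs <;> omega
        · intro i hi j hj h
          split_ifs at h <;> omega
        · intro i hi
          by_cases h3 : i + 1 ≤ a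
          · rw [if_pos (by omega), if_pos h3]
            have := hed (a - (i + 1)) (by omega)
            have e1 : a - (i + 1) + 1 = a - i := by omega
            rw [e1] at this
            exact adjs _ _ this
          · rw [if_neg h3]
            by_cases h4 : i = a
            · rw [if_pos (by omega), if_pos (by omega), h4]
              have e1 : a - a = 0 := by omega
              have e2 : l - 1 + (a + 1 - (a + 1)) = l - 1 := by omega
              rw [e1, e2]
              exact adjs _ _ hclose
            · rw [if_neg (by omega), if_pos (by omega)]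
              by_cases h5 : i + 1 ≤ a + (b - l + 2)
              · rw [if_pos h5]
                have := hed (l - 1 + (i - (a + 1))) (by omega)
                have e1 : l - 1 + (i - (a + 1)) + 1 = l - 1 + (i + 1 - (a + 1)) := by omega
                rw [e1] at this
                exact this
              · rw [if_neg h5]
                have e1 : l - 1 + (i - (a + 1)) = b := by omega
                rw [e1]
                exact adjs _ _ eb
        · rw [if_neg (by omega), if_neg (by omega), if_pos (by omega)]
          exact ea
      omega
    · omega
  · -- C3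
    have c3 : g ≤ a + r - l + 3 := by
      apply hgirth _ (by omega)
      refine mk hinj (fun i => if i ≤ a then a - i else (l - 1) + (i - (a + 1))) (a + r - l + 3)
        (by omega) ?_ ?_ ?_ ?_
      · intro i hi
        split_ifs <;> omega
      · intro i hi j hj h
        split_ifs at h <;> omega
      · intro i hi
        by_cases h3 : i + 1 ≤ a
        · rw [if_pos (by omega), if_pos h3]
          have := hed (a - (i + 1)) (by omega)
          have e1 : a - (i + 1) + 1 = a - i := by omega
          rw [e1] at this
          exact adjs _ _ this
        · rw [if_neg h3]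
          by_cases h4 : i = a
          · rw [if_pos (by omega), h4]
            have e1 : a - a = 0 := by omega
            have e2 : l - 1 + (a + 1 - (a + 1)) = l - 1 := by omega
            rw [e1, e2]
            exact adjs _ _ hclose
          · rw [if_neg (by omega)]
            have := hed (l - 1 + (i - (a + 1))) (by omega)
            have e1 : l - 1 + (i - (a + 1)) + 1 = l - 1 + (i + 1 - (a + 1)) := by omega
            rw [e1] at this
            exact this
      · rw [if_neg (by omega), if_pos (by omega)]
        have e1 : l - 1 + (a + r - l + 3 - 1 - (a + 1)) = r := by omega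
        rw [e1]
        exact ea
    omega

end Pool.Agent.W334.KG
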